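import Pool.Agent.H14.GLA.NS
import Pool.Agent.H74.GLA.WC

/-!
# Module FP of the board gla_modules: properties of the normalised theta function
-/

set_option autoImplicit false

open NumberField NumberField.InfinitePlace NumberField.Units
  NumberField.Units.dirichletUnitTheorem MeasureTheory Set Filter Complex
open scoped nonZeroDivisors ENNReal Topology

namespace Pool.Agent.H14.GLA

open Pool.Agent.H25.HK Pool.Agent.H28.RC Pool.Agent.H23.LB

section
variable {K : Type} [Field K] [NumberField K]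

lemma FT_cont (hYC : T_YC) (hCT : T_CT) (hDU : T_DU) (M : FI K) (hM : M ≠ 0) :
    ContinuousOn (fun p : ℝ × logSpace K => FT K M p.2 p.1) (Ioi 0 ×ˢ univ) := by
  unfold FT
  refine (hCT K M hM).comp_continuousOn ?_
  refine Pool.Agent.H74.GLA.yc_contOn hYC (fun t => t / cv K M) ?_ ?_ (fun z => z)
    continuous_id
  · fun_prop
  · intro t ht
    exact (div_pos ht (cv_pos' hDU M hM)).ne'

lemma FT_unit (hUI : T_UI) (M : FI K) (z : logSpace K) (l : logSpace K)
    (hl : l ∈ unitLattice K) (T : ℝ) : FT K M (z + l) T = FT K M z T := by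
  obtain ⟨u, -, hu⟩ := hl
  have hu' : logEmbedding K (Additive.ofMul (Additive.toMul u)) = l := hu
  unfold FT
  rw [← hu']
  exact (hUI K M _ z (Additive.toMul u)).2

lemma FT_one_le (hTH : T_TH) (M : FI K) (hM : M ≠ 0) (z : logSpace K) (T : ℝ) :
    1 ≤ FT K M z T := by
  unfold FT th
  have h1 := (hTH K M hM (yc K (Real.log (T / cv K M)) z)).1
  have h2 := h1.le_tsum ⟨0, M.zero_mem⟩ fun x _ => (Real.exp_pos _).le
  simp only at h2
  rw [Pool.Agent.H87.HK.qK_zero, mul_zero, Real.exp_zero] at h2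
  exact h2

lemma FT_inv (hTH : T_TH) (hYC : T_YC) (hDU : T_DU) (M : FI K) (hM : M ≠ 0) (z : logSpace K)
    (T : ℝ) (hT : 0 < T) : FT K M z (1 / T) = T * FT K (du K M) (-z) T := by
  have hcv := cv_pos' hDU M hM
  unfold FT
  rw [(hTH K M hM _).2, (hYC K).1, ← (hYC K).2.1, cv_du hDU M hM]
  have h1 : -Real.log (1 / T / cv K M) = Real.log (T / (cv K M)⁻¹) := by
    rw [← Real.log_inv]
    congr 1
    field_simp
  rw [h1]
  have h2 : Real.exp (-(2 * Real.log (1 / T / cv K M)) / 2) = T * cv K M := by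
    have : -(2 * Real.log (1 / T / cv K M)) / 2 = Real.log (T / (cv K M)⁻¹) := by
      rw [← h1]
      ring
    rw [this, div_inv_eq_mul, Real.exp_log (mul_pos hT hcv)]
  rw [h2, mul_assoc T, mul_inv_cancel₀ hcv.ne', mul_one]

lemma FT_anti (hTH : T_TH) (hYC : T_YC) (hDU : T_DU) (M : FI K) (hM : M ≠ 0) (z : logSpace K) :
    AntitoneOn (FT K M z) (Ioi 0) := by
  intro T hT T' hT' hTT
  have hcv := cv_pos' hDU M hM
  unfold FT th
  refine (hTH K M hM _).1.tsum_le_tsum (fun x => ?_) (hTH K M hM _).1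
  apply Real.exp_le_exp.2
  have h1 := Pool.Agent.H87.HK.qK_mono
    (y := yc K (Real.log (T / cv K M)) z) (y' := yc K (Real.log (T' / cv K M)) z)
    (fun v => by
      rw [(hYC K).2.2.2.1 (Real.log (T / cv K M)), (hYC K).2.2.2.1 (Real.log (T' / cv K M))]
      have h2 : Real.log (T / cv K M) ≤ Real.log (T' / cv K M) :=
        Real.log_le_log (div_pos hT hcv) (by gcongr)
      have h3 : 2 * Real.log (T / cv K M) / (Module.finrank ℚ K : ℝ) ≤
          2 * Real.log (T' / cv K M) / Module.finrank ℚ K := by gcongr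
      linarith) (x : K)
  have := Real.pi_pos
  nlinarith

lemma th_tz (M : FI K) (y : InfinitePlace K → ℝ) :
    tz K ∅ M (fun _ => 1) (((0 : ℝ) : ℂ) * I) y = ((th K M y : ℝ) : ℂ) := by
  unfold tz th
  rw [Complex.ofReal_tsum]
  refine tsum_congr fun x => ?_
  rw [ws_empty]
  push_cast
  simp

lemma FT_decay (hTH : T_TH) (hYC : T_YC) (hDU : T_DU) (M : FI K) (hM : M ≠ 0) (B : ℝ) :
    ∃ C c : ℝ, 0 < c ∧ ∀ T : ℝ, 1 ≤ T → ∀ z : logSpace K, (∀ w, |z w| ≤ B) →
      |FT K M z T - 1| ≤ C * Real.exp (-c * T ^ ((2 : ℝ) / Module.finrank ℚ K)) := by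
  obtain ⟨C, b, hb, h⟩ := Pool.Agent.H74.GLA.tz_decay hTH hYC ∅ M hM (fun _ => 1) 0
    (by rw [abs_zero]; positivity) (fun x _ => by simp) (cv K M)⁻¹
    (inv_pos.2 (cv_pos' hDU M hM)) B
  refine ⟨C, b, hb, fun T hT z hz => ?_⟩
  have h1 := h T hT z hz
  rw [th_tz, if_pos rfl, ← div_eq_mul_inv] at h1
  have h2 : ((th K M (yc K (Real.log (T / cv K M)) z) : ℝ) : ℂ) - 1 =
      ((FT K M z T - 1 : ℝ) : ℂ) := by
    unfold FT
    push_cast
    rfl
  rw [h2, Complex.norm_real, Real.norm_eq_abs] at h1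
  exact h1

/-- the dominating function -/
noncomputable def hb (κ T : ℝ) : ℝ := if T ≤ 1 then T ^ (κ - 1) else T ^ (-2 : ℝ)

lemma hb_int {κ : ℝ} (hκ : 0 < κ) : IntegrableOn (hb κ) (Ioi 0) := by
  have h1 : IntegrableOn (hb κ) (Ioc 0 1) := by
    have h2 : IntegrableOn (fun T : ℝ => T ^ (κ - 1)) (Ioc 0 1) := by
      rw [← intervalIntegrable_iff_integrableOn_Ioc_of_le zero_le_one]
      exact intervalIntegral.intervalIntegrable_rpow' (by linarith)
    refine h2.congr_fun (fun T hT => ?_) measurableSet_Ioc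
    unfold hb
    simp only
    rw [if_pos hT.2]
  have h3 : IntegrableOn (hb κ) (Ioi 1) := by
    have h4 : IntegrableOn (fun T : ℝ => T ^ (-2 : ℝ)) (Ioi 1) :=
      integrableOn_Ioi_rpow_of_lt (by norm_num) one_pos
    refine h4.congr_fun (fun T hT => ?_) measurableSet_Ioi
    unfold hb
    simp only
    rw [if_neg (not_le.2 hT)]
  have h5 := h1.union h3
  rwa [Ioc_union_Ioi_eq_Ioi zero_le_one] at h5

/-- exponential decay beats powers -/
lemma exp_pow (c e κ : ℝ) (hc : 0 < c) (he : 0 < e) :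
    ∃ A : ℝ, 0 ≤ A ∧ ∀ T : ℝ, 1 ≤ T → Real.exp (-c * T ^ e) * T ^ κ ≤ A * T ^ (-2 : ℝ) := by
  obtain ⟨m, hm⟩ := exists_nat_ge ((κ + 2) / e)
  refine ⟨m.factorial / c ^ m, by positivity, fun T hT => ?_⟩
  have hT0 : 0 < T := by linarith
  have h1 : 0 < c * T ^ e := by positivity
  have h2 := Real.pow_div_factorial_le_exp (c * T ^ e) h1.le m
  have h3 : Real.exp (-c * T ^ e) = (Real.exp (c * T ^ e))⁻¹ := by
    rw [← Real.exp_neg]
    congr 1
    ring
  have h4 : 0 < (c * T ^ e) ^ m / m.factorial := by positivity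
  have h5 : Real.exp (-c * T ^ e) ≤ ((c * T ^ e) ^ m / m.factorial)⁻¹ := by
    rw [h3]
    exact inv_anti₀ h4 h2
  have h6 : ((c * T ^ e) ^ m / m.factorial)⁻¹ = m.factorial / c ^ m * T ^ (-(e * m)) := by
    rw [mul_pow, ← Real.rpow_natCast (T ^ e), ← Real.rpow_mul hT0.le, Real.rpow_neg hT0.le]
    field_simp
  rw [h6] at h5
  have h7 : T ^ (-(e * m)) * T ^ κ ≤ T ^ (-2 : ℝ) := by
    rw [← Real.rpow_add hT0]
    refine Real.rpow_le_rpow_of_exponent_le hT ?_
    have : κ + 2 ≤ m * e := (div_le_iff₀ he).1 hm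
    linarith
  calc Real.exp (-c * T ^ e) * T ^ κ ≤ m.factorial / c ^ m * T ^ (-(e * m)) * T ^ κ := by
        gcongr
    _ = m.factorial / c ^ m * (T ^ (-(e * m)) * T ^ κ) := by ring
    _ ≤ _ := by gcongr

lemma FT_bound (hTH : T_TH) (hYC : T_YC) (hDU : T_DU) (M : FI K) (hM : M ≠ 0) (κ B : ℝ) :
    ∃ A : ℝ, ∀ z : logSpace K, (∀ w, |z w| ≤ B) → ∀ T ∈ Ioi (0 : ℝ),
      ‖(FT K M z T - 1) * T ^ κ‖ ≤ A * hb κ T := by
  obtain ⟨C, c, hc, h1⟩ := FT_decay hTH hYC hDU M hM B
  have hdu : du K M ≠ 0 := (hDU K M hM).1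
  obtain ⟨C', c', hc', h2⟩ := FT_decay hTH hYC hDU (du K M) hdu B
  have hn : 0 < Module.finrank ℚ K := Module.finrank_pos
  have he : (0 : ℝ) < (2 : ℝ) / Module.finrank ℚ K := by positivity
  obtain ⟨A, hA, h3⟩ := exp_pow c _ κ hc he
  refine ⟨|C| * A + (1 + |C'|), fun z hz T hT => ?_⟩
  have hT0 : 0 < T := hT
  have h4 := FT_one_le hTH M hM z T
  have h5 : 0 ≤ FT K M z T - 1 := by linarith
  rw [Real.norm_eq_abs, abs_of_nonneg (mul_nonneg h5 (Real.rpow_nonneg hT0.le _))]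
  unfold hb
  split_ifs with h6
  · have h7 : (1 : ℝ) ≤ 1 / T := by rw [le_div_iff₀ hT0]; linarith
    have h8 := FT_inv hTH hYC hDU M hM z (1 / T) (by positivity)
    rw [one_div_one_div] at h8
    have h9 := h2 (1 / T) h7 (-z) (by simpa using hz)
    have h10 : Real.exp (-c' * (1 / T) ^ ((2 : ℝ) / Module.finrank ℚ K)) ≤ 1 := by
      have : 0 ≤ (1 / T) ^ ((2 : ℝ) / Module.finrank ℚ K) := by positivity
      rw [Real.exp_le_one_iff]
      nlinarith
    have h11 : FT K (du K M) (-z) (1 / T) ≤ 1 + |C'| := by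
      have h12 := (le_abs_self _).trans h9
      have h13 : C' * Real.exp (-c' * (1 / T) ^ ((2 : ℝ) / Module.finrank ℚ K)) ≤ |C'| * 1 :=
        mul_le_mul (le_abs_self _) h10 (Real.exp_pos _).le (abs_nonneg _)
      linarith
    have h14 : FT K M z T - 1 ≤ (1 + |C'|) * T⁻¹ := by
      rw [h8, one_div]
      have : 0 < T⁻¹ := by positivity
      rw [one_div] at h11
      nlinarith
    have h15 : T ^ (κ - 1) = T⁻¹ * T ^ κ := by
      rw [Real.rpow_sub hT0, Real.rpow_one]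
      field_simp
    rw [h15]
    have h16 : 0 ≤ T ^ κ := Real.rpow_nonneg hT0.le _
    have h17 : 0 ≤ T⁻¹ * T ^ κ := by positivity
    calc (FT K M z T - 1) * T ^ κ ≤ (1 + |C'|) * T⁻¹ * T ^ κ := by gcongr
      _ = (1 + |C'|) * (T⁻¹ * T ^ κ) := by ring
      _ ≤ (|C| * A + (1 + |C'|)) * (T⁻¹ * T ^ κ) := by
          have : 0 ≤ |C| * A := by positivity
          exact mul_le_mul_of_nonneg_right (by linarith) h17
  · have h7 : 1 ≤ T := (not_le.1 h6).le
    have h8 := (le_abs_self _).trans (h1 T h7 z hz)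
    have h9 := h3 T h7
    have h16 : 0 ≤ T ^ κ := Real.rpow_nonneg hT0.le _
    have h17 : 0 ≤ T ^ (-2 : ℝ) := Real.rpow_nonneg hT0.le _
    calc (FT K M z T - 1) * T ^ κ
        ≤ C * Real.exp (-c * T ^ ((2 : ℝ) / Module.finrank ℚ K)) * T ^ κ := by gcongr
      _ ≤ |C| * Real.exp (-c * T ^ ((2 : ℝ) / Module.finrank ℚ K)) * T ^ κ := by
          gcongr
          exact le_abs_self _
      _ = |C| * (Real.exp (-c * T ^ ((2 : ℝ) / Module.finrank ℚ K)) * T ^ κ) := by ring
      _ ≤ |C| * (A * T ^ (-2 : ℝ)) := by gcongr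
      _ ≤ (|C| * A + (1 + |C'|)) * T ^ (-2 : ℝ) := by
          have : 0 ≤ (1 + |C'|) * T ^ (-2 : ℝ) := by positivity
          nlinarith

lemma FT_contT (hYC : T_YC) (hCT : T_CT) (hDU : T_DU) (M : FI K) (hM : M ≠ 0)
    (z : logSpace K) : ContinuousOn (fun T => FT K M z T) (Ioi 0) := by
  have h1 := FT_cont hYC hCT hDU M hM
  exact h1.comp (f := fun T : ℝ => (T, z)) (by fun_prop) fun T hT => ⟨hT, mem_univ _⟩

lemma FT_meas (hYC : T_YC) (hCT : T_CT) (hDU : T_DU) (M : FI K) (hM : M ≠ 0)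
    (z : logSpace K) (κ : ℝ) : AEStronglyMeasurable (fun T => (FT K M z T - 1) * T ^ κ)
      (volume.restrict (Ioi (0 : ℝ))) := by
  refine ContinuousOn.aestronglyMeasurable ?_ measurableSet_Ioi
  refine ((FT_contT hYC hCT hDU M hM z).sub continuousOn_const).mul ?_
  intro T hT
  exact (Real.continuousAt_rpow_const _ _ (Or.inl (ne_of_gt hT))).continuousWithinAt

lemma FT_integ (hTH : T_TH) (hYC : T_YC) (hCT : T_CT) (hDU : T_DU) (M : FI K) (hM : M ≠ 0)
    (κ : ℝ) (hκ : 0 < κ) (z : logSpace K) :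
    IntegrableOn (fun T => (FT K M z T - 1) * T ^ κ) (Ioi 0) := by
  classical
  obtain ⟨A, hA⟩ := FT_bound hTH hYC hDU M hM κ (∑ w, |z w|)
  have h0 : ∀ w, |z w| ≤ ∑ w, |z w| := fun w =>
    Finset.single_le_sum (f := fun w => |z w|) (fun w _ => abs_nonneg _) (Finset.mem_univ w)
  refine Integrable.mono' ((hb_int hκ).const_mul A) (FT_meas hYC hCT hDU M hM z κ) ?_
  rw [ae_restrict_iff' measurableSet_Ioi]
  exact Eventually.of_forall fun T hT => hA z h0 T hT

lemma AK_cont (hTH : T_TH) (hYC : T_YC) (hCT : T_CT) (hDU : T_DU) (M : FI K) (hM : M ≠ 0)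
    (κ : ℝ) (hκ : 0 < κ) : Continuous (fun z => AK K κ M z) := by
  classical
  rw [continuous_iff_continuousAt]
  intro z0
  obtain ⟨A, hA⟩ := FT_bound hTH hYC hDU M hM κ (1 + ∑ w, |z0 w|)
  unfold AK
  refine continuousAt_of_dominated (bound := fun T => A * hb κ T)
    (Eventually.of_forall fun z => FT_meas hYC hCT hDU M hM z κ) ?_
    ((hb_int hκ).const_mul A) ?_
  · have h1 : ∀ᶠ z : logSpace K in 𝓝 z0, ∀ w, |z w| < 1 + ∑ w, |z0 w| := by
      rw [eventually_all]
      intro w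
      have h2 : ContinuousAt (fun z : logSpace K => |z w|) z0 :=
        (continuous_apply w).abs.continuousAt
      refine h2.eventually_lt continuousAt_const ?_
      have : |z0 w| ≤ ∑ w, |z0 w| :=
        Finset.single_le_sum (f := fun w => |z0 w|) (fun w _ => abs_nonneg _)
          (Finset.mem_univ w)
      linarith
    filter_upwards [h1] with z hz
    rw [ae_restrict_iff' measurableSet_Ioi]
    exact Eventually.of_forall fun T hT => hA z (fun w => (hz w).le) T hT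
  · rw [ae_restrict_iff' measurableSet_Ioi]
    refine Eventually.of_forall fun T hT => ?_
    have h1 : Continuous fun z : logSpace K => FT K M z T := by
      have h2 := FT_cont hYC hCT hDU M hM
      have h3 : ContinuousOn (fun z : logSpace K => FT K M z T) univ :=
        h2.comp (f := fun z : logSpace K => (T, z)) (by fun_prop) fun z _ => ⟨hT, mem_univ _⟩
      exact continuousOn_univ.1 h3
    exact ((h1.sub continuous_const).mul continuous_const).continuousAt

end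

theorem pf_FP (hTH : T_TH) (hYC : T_YC) (hUI : T_UI) (hCT : T_CT) (hDU : T_DU) : T_FP := by
  intro K _ _ M hM
  refine ⟨FT_cont hYC hCT hDU M hM, fun z l hl T => FT_unit hUI M z l hl T,
    fun z T hT => ⟨FT_one_le hTH M hM z T, FT_inv hTH hYC hDU M hM z T hT⟩,
    fun z => FT_anti hTH hYC hDU M hM z, fun B => FT_decay hTH hYC hDU M hM B,
    fun κ hκ => ⟨AK_cont hTH hYC hCT hDU M hM κ hκ, fun z l hl => ?_,
      fun z => FT_integ hTH hYC hCT hDU M hM κ hκ z⟩⟩
  unfold AK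
  simp_rw [FT_unit hUI M z l hl]

end Pool.Agent.H14.GLA
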