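import Pool.Agent.H23.LB.Targets
import Pool.Agent.H3.HK.TH

/-!
# Module NS of the board gla_modules: ideal lattices as positive definite matrices
-/

set_option autoImplicit false

open NumberField NumberField.InfinitePlace NumberField.Units
  NumberField.Units.dirichletUnitTheorem MeasureTheory Set Filter Complex
open scoped nonZeroDivisors ENNReal

namespace Pool.Agent.H14.GLA

open Pool.Agent.H25.HK Pool.Agent.H28.RC Pool.Agent.H23.LB

lemma card_index' (K : Type) [Field K] [NumberField K] [Fintype (mixedEmbedding.index K)] :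
    Fintype.card (mixedEmbedding.index K) = Module.finrank ℚ K := by
  classical
  rw [← mixedEmbedding.finrank K, Module.finrank_eq_card_basis (mixedEmbedding.stdBasis K)]

lemma cv_pos' {K : Type} [Field K] [NumberField K] (hDU : T_DU) (M : FI K) (hM : M ≠ 0) :
    0 < cv K M := by
  unfold cv
  have h1 := (hDU K M hM).2.2.2.1
  have h2 : (discr K : ℝ) ≠ 0 := by
    exact_mod_cast discr_ne_zero K
  exact mul_pos (Real.sqrt_pos.2 (abs_pos.2 h2)) h1

lemma cv_du {K : Type} [Field K] [NumberField K] (hDU : T_DU) (M : FI K) (hM : M ≠ 0) :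
    cv K (du K M) = (cv K M)⁻¹ := by
  have h0 := cv_pos' hDU M hM
  have h1 := (hDU K M hM).2.2.2.2
  refine eq_inv_of_mul_eq_one_left ?_
  unfold cv
  have h2 : Real.sqrt |(discr K : ℝ)| * Real.sqrt |(discr K : ℝ)| = |(discr K : ℝ)| :=
    Real.mul_self_sqrt (abs_nonneg _)
  calc Real.sqrt |(discr K : ℝ)| * (FractionalIdeal.absNorm (du K M) : ℝ) *
        (Real.sqrt |(discr K : ℝ)| * (FractionalIdeal.absNorm M : ℝ))
      = (FractionalIdeal.absNorm (du K M) : ℝ) * (FractionalIdeal.absNorm M : ℝ) *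
        (Real.sqrt |(discr K : ℝ)| * Real.sqrt |(discr K : ℝ)|) := by ring
    _ = 1 := by rw [h2, h1]

lemma qK_add' {K : Type} [Field K] [NumberField K] (y : InfinitePlace K → ℝ) (b : ℝ) (x : K) :
    qK K (fun v => b + y v) x = Real.exp b * qK K y x := by
  unfold qK
  rw [Finset.mul_sum]
  refine Finset.sum_congr rfl fun v _ => ?_
  rw [Real.exp_add]
  ring

lemma qK_yc {K : Type} [Field K] [NumberField K] (hYC : T_YC) (t : ℝ) (ht : 0 < t)
    (z : logSpace K) (x : K) :
    qK K (yc K (Real.log t) z) x = t ^ ((2 : ℝ) / Module.finrank ℚ K) * qK K (yc K 0 z) x := by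
  have h1 : yc K (Real.log t) z =
      fun v => 2 * Real.log t / Module.finrank ℚ K + yc K 0 z v := by
    funext v
    exact (hYC K).2.2.2.1 _ z v
  rw [h1, qK_add', Real.rpow_def_of_pos ht]
  congr 2
  ring

lemma qf_smul {ι : Type} [Fintype ι] (a : ℝ) (S : Matrix ι ι ℝ) (x : ι → ℝ) :
    qf (a • S) x = a * qf S x := by
  unfold qf
  rw [Finset.mul_sum]
  refine Finset.sum_congr rfl fun i _ => ?_
  rw [Finset.mul_sum]
  refine Finset.sum_congr rfl fun j _ => ?_
  rw [Matrix.smul_apply, smul_eq_mul]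
  ring

open scoped Classical in
/-- the theta series in coordinates -/
lemma th_coord {K : Type} [Field K] [NumberField K] (hYC : T_YC) (M : FI K)
    (b : Module.Basis (mixedEmbedding.index K) ℚ K)
    (hb : ∀ x : K, x ∈ M ↔ ∃ m : mixedEmbedding.index K → ℤ, ∑ i, m i • b i = x)
    (z : logSpace K) (S : Matrix (mixedEmbedding.index K) (mixedEmbedding.index K) ℝ)
    (hS : ∀ m : mixedEmbedding.index K → ℤ,
      qf S (fun i => (m i : ℝ)) = qK K (yc K 0 z) (∑ i, m i • b i))
    (k T : ℝ) (hk : 0 < k) (hT : 0 < T) :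
    Fs (k ^ (-((2 : ℝ) / Module.finrank ℚ K)) • S) T = th K M (yc K (Real.log (T / k)) z) := by
  have hcard : (Fintype.card (mixedEmbedding.index K) : ℝ) = Module.finrank ℚ K := by
    exact_mod_cast card_index' K
  unfold Fs
  rw [th, ← (Pool.Agent.H3.HK.latEquiv M b hb).tsum_eq]
  refine tsum_congr fun m => ?_
  rw [Pool.Agent.H3.HK.latEquiv_apply, qK_yc hYC _ (div_pos hT hk), qz, qf_smul, hS, hcard,
    Real.div_rpow hT.le hk.le, Real.rpow_neg hk.le]
  congr 1
  ring

open scoped Classical in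
theorem pf_NS (hGM : T_GM) (hLB : T_LBc) (hDU : T_DU) (hYC : T_YC) : T_NS := by
  intro K _ _ M z hM
  obtain ⟨b, b', hbb, hM1, hM2, hd⟩ := hLB K M hM
  obtain ⟨S, hS, h1, h2, h3⟩ := hGM K _ b b' hbb (yc K 0 z)
  have hcv := cv_pos' hDU M hM
  have hn : 0 < Module.finrank ℚ K := Module.finrank_pos
  have hn' : (Module.finrank ℚ K : ℝ) ≠ 0 := by positivity
  set a : ℝ := cv K M ^ (-((2 : ℝ) / Module.finrank ℚ K)) with ha
  have ha0 : 0 < a := Real.rpow_pos_of_pos hcv _
  refine ⟨a • S, hS.smul ha0, ?_, ?_⟩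
  · rw [Matrix.det_smul, card_index' K, h3, (hYC K).1, hd, mul_zero, Real.exp_zero, one_mul, ha,
      ← Real.rpow_natCast, ← Real.rpow_mul hcv.le]
    have : -((2 : ℝ) / Module.finrank ℚ K) * (Module.finrank ℚ K : ℝ) = -2 := by
      field_simp
    rw [this, Real.rpow_neg hcv.le, Real.rpow_two]
    exact inv_mul_cancel₀ (by positivity)
  · intro T hT
    constructor
    · exact th_coord hYC M b hM1 z S h1 (cv K M) T hcv hT
    · have hinv : (a • S)⁻¹ = a⁻¹ • S⁻¹ := by
        have hu : IsUnit S.det := by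
          rw [isUnit_iff_ne_zero]
          exact hS.det_pos.ne'
        refine Matrix.inv_eq_right_inv ?_
        rw [Matrix.smul_mul, Matrix.mul_smul, smul_smul, mul_inv_cancel₀ ha0.ne', one_smul,
          Matrix.mul_nonsing_inv _ hu]
      have hy : -yc K 0 z = yc K 0 (-z) := by
        have := (hYC K).2.1 0 z
        rw [neg_zero] at this
        exact this.symm
      rw [hy] at h2
      have h4 := th_coord hYC (du K M) b' hM2 (-z) S⁻¹ h2 (cv K M)⁻¹ T (inv_pos.2 hcv) hT
      rw [hinv, FT, cv_du hDU M hM]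
      have h5 : a⁻¹ = (cv K M)⁻¹ ^ (-((2 : ℝ) / Module.finrank ℚ K)) := by
        rw [Real.inv_rpow hcv.le]
      rw [h5]
      exact h4

end Pool.Agent.H14.GLA
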